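import Pool.Agent.H11.EL.Targets

/-!
# Module [BA]: the number of tuples which do not generate
-/

set_option autoImplicit false

open scoped commutatorElement

namespace Pool.Agent.H19.EL

open Pool.Agent.H11.EL

variable {G : Type} [Group G]

/-- a proper supplement of `M` containing `Z` meets `M` in `Z` -/
theorem inf_eq {M Z : Subgroup G} (h : CF M Z) {H : Subgroup G} (hZ : Z ≤ H) (hM : H ⊔ M = ⊤)
    (hH : H ≠ ⊤) : H ⊓ M = Z := by
  have hnM := h.nM
  have hn : (H ⊓ M).Normal := by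
    refine ⟨fun x hx g => ?_⟩
    have hg : g ∈ H ⊔ M := by rw [hM]; exact Subgroup.mem_top g
    obtain ⟨y, hy, m, hm, rfl⟩ := Subgroup.mem_sup_of_normal_right.1 hg
    have h1 : m * x * m⁻¹ ∈ H := by
      have e : m * x * m⁻¹ = ⁅m, x⁆ * x := by
        rw [commutatorElement_def]; group
      rw [e]
      exact H.mul_mem (hZ (h.cM (Subgroup.commutator_mem_commutator hm hx.2))) hx.1
    have e : y * m * x * (y * m)⁻¹ = y * (m * x * m⁻¹) * y⁻¹ := by group
    refine ⟨?_, hnM.conj_mem x hx.2 _⟩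
    rw [e]
    exact H.mul_mem (H.mul_mem hy h1) (H.inv_mem hy)
  have hne : H ⊓ M ≠ M := by
    intro he
    have h1 : M ≤ H := inf_eq_right.1 he
    exact hH (by rw [← hM]; exact (sup_eq_left.2 h1).symm)
  exact le_antisymm (h.min _ hn inf_le_right hne) (le_inf hZ h.lt.le)

open Classical in
/-- an element `m` of `M` with `m g` in `H`, if there is one -/
noncomputable def pick (M H : Subgroup G) (g : G) : M :=
  if h : ∃ m : M, (m : G) * g ∈ H then h.choose else 1

theorem pick_spec {M H : Subgroup G} (hn : M.Normal) (hM : H ⊔ M = ⊤) (g : G) :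
    ((pick M H g : M) : G) * g ∈ H := by
  have hg : g ∈ H ⊔ M := by rw [hM]; exact Subgroup.mem_top g
  rw [sup_comm] at hg
  obtain ⟨m, hm, y, hy, rfl⟩ := Subgroup.mem_sup_of_normal_left.1 hg
  have h : ∃ m' : M, (m' : G) * (m * y) ∈ H := ⟨⟨m⁻¹, M.inv_mem hm⟩, by simpa using hy⟩
  unfold pick
  rw [dif_pos h]
  exact h.choose_spec

/-- the supplement is determined by the classes of the elements `pick M H (s j)` -/
theorem supp_eq {M Z : Subgroup G} (h : CF M Z) {H H' : Subgroup G} (hZ : Z ≤ H) (hZ' : Z ≤ H')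
    (hM : H ⊔ M = ⊤) (hM' : H' ⊔ M = ⊤) (hH : H ≠ ⊤) (hH' : H' ≠ ⊤) {d : ℕ} (s : Fin d → G)
    (hs : Subgroup.closure (Set.range s) = ⊤)
    (hc : ∀ j, (pick M H (s j) : M)⁻¹ * pick M H' (s j) ∈ Z.subgroupOf M) : H = H' := by
  have hnM := h.nM
  have h1 := inf_eq h hZ hM hH
  have h1' := inf_eq h hZ' hM' hH'
  set L : Subgroup G := Subgroup.closure
    (Set.range (fun j => ((pick M H (s j) : M) : G) * s j) ∪ Z) with hL
  have hLH : L ≤ H := by
    rw [hL, Subgroup.closure_le]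
    rintro x (⟨j, rfl⟩ | hx)
    · exact pick_spec hnM hM (s j)
    · exact hZ hx
  have hLH' : L ≤ H' := by
    rw [hL, Subgroup.closure_le]
    rintro x (⟨j, rfl⟩ | hx)
    · have h2 : ((pick M H (s j) : M) : G)⁻¹ * ((pick M H' (s j) : M) : G) ∈ Z := by
        have := hc j
        rw [Subgroup.mem_subgroupOf] at this
        simpa using this
      have h3 := h.nZ.conj_mem _ h2 ((pick M H (s j) : M) : G)
      have e : ((pick M H (s j) : M) : G) * s j =
          (((pick M H (s j) : M) : G) * (((pick M H (s j) : M) : G)⁻¹ *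
            ((pick M H' (s j) : M) : G)) * ((pick M H (s j) : M) : G)⁻¹)⁻¹ *
              (((pick M H' (s j) : M) : G) * s j) := by group
      change ((pick M H (s j) : M) : G) * s j ∈ H'
      rw [e]
      exact H'.mul_mem (H'.inv_mem (hZ' h3)) (pick_spec hnM hM' (s j))
    · exact hZ' hx
  have hLM : L ⊔ M = ⊤ := by
    rw [eq_top_iff, ← hs, Subgroup.closure_le]
    rintro x ⟨j, rfl⟩
    have e : s j = ((pick M H (s j) : M) : G)⁻¹ * (((pick M H (s j) : M) : G) * s j) := by group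
    change s j ∈ L ⊔ M
    rw [e]
    refine (L ⊔ M).mul_mem ((le_sup_right : M ≤ L ⊔ M) (M.inv_mem (pick M H (s j)).2))
      ((le_sup_left : L ≤ L ⊔ M) (Subgroup.subset_closure (Or.inl ⟨j, rfl⟩)))
  have hZL : Z ≤ L := fun z hz => Subgroup.subset_closure (Or.inr hz)
  have key : ∀ K : Subgroup G, L ≤ K → K ⊓ M = Z → K = L := by
    intro K hLK hK
    refine le_antisymm (fun x hx => ?_) hLK
    have hx' : x ∈ L ⊔ M := by rw [hLM]; exact Subgroup.mem_top x
    obtain ⟨y, hy, m, hm, rfl⟩ := Subgroup.mem_sup_of_normal_right.1 hx'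
    have h2 : m ∈ K := by
      have e : m = y⁻¹ * (y * m) := by group
      rw [e]
      exact K.mul_mem (K.inv_mem (hLK hy)) hx
    have h3 : m ∈ Z := by rw [← hK]; exact ⟨h2, hm⟩
    exact L.mul_mem hy (hZL h3)
  rw [key H hLH h1, key H' hLH' h1']

/-- (BA) -/
theorem pf_ba : T_BA := by
  intro G _ _ M Z h d s hs n a b hab
  have hnM := h.nM
  set X := (Fin n → M) × (Fin n → M) with hX
  set H : X → Subgroup G := fun m => Subgroup.closure
      (ent n (fun i => sq n (1 : G) (fun j => ((m.1 j : M) : G)) i * a i)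
        (fun i => sq n (1 : G) (fun j => ((m.2 j : M) : G)) i * b i) ∪ Z) with hHdef
  have hZ : ∀ m, Z ≤ H m := fun m z hz => Subgroup.subset_closure (Or.inr hz)
  have ha : ∀ (m : X) (i : Fin n), ((m.1 i : M) : G) * a i ∈ H m := by
    intro m i
    refine Subgroup.subset_closure (Or.inl ⟨i, i.2, Or.inl ?_⟩)
    change ((m.1 i : M) : G) * a i = sq n (1 : G) (fun j => ((m.1 j : M) : G)) i * a i
    rw [sq_lt _ _ i.2]
  have hb : ∀ (m : X) (i : Fin n), ((m.2 i : M) : G) * b i ∈ H m := by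
    intro m i
    refine Subgroup.subset_closure (Or.inl ⟨i, i.2, Or.inr ?_⟩)
    change ((m.2 i : M) : G) * b i = sq n (1 : G) (fun j => ((m.2 j : M) : G)) i * b i
    rw [sq_lt _ _ i.2]
  have hM : ∀ m, H m ⊔ M = ⊤ := by
    intro m
    rw [eq_top_iff, ← hab, Subgroup.closure_le]
    rintro x (⟨i, hi, hx | hx⟩ | hx)
    · have e : x = ((m.1 ⟨i, hi⟩ : M) : G)⁻¹ * (((m.1 ⟨i, hi⟩ : M) : G) * a i) := by
        rw [hx]; group
      rw [e]
      exact (H m ⊔ M).mul_mem ((le_sup_right : M ≤ H m ⊔ M) (M.inv_mem (m.1 ⟨i, hi⟩).2))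
        ((le_sup_left : H m ≤ H m ⊔ M) (ha m ⟨i, hi⟩))
    · have e : x = ((m.2 ⟨i, hi⟩ : M) : G)⁻¹ * (((m.2 ⟨i, hi⟩ : M) : G) * b i) := by
        rw [hx]; group
      rw [e]
      exact (H m ⊔ M).mul_mem ((le_sup_right : M ≤ H m ⊔ M) (M.inv_mem (m.2 ⟨i, hi⟩).2))
        ((le_sup_left : H m ≤ H m ⊔ M) (hb m ⟨i, hi⟩))
    · exact (le_sup_right : M ≤ H m ⊔ M) hx
  -- the difference of two solutions
  have hdiff : ∀ (m : X), H m ≠ ⊤ → ∀ (x : M) (g : G), (x : G) * g ∈ H m →
      (x : G) * ((pick M (H m) g : M) : G)⁻¹ ∈ Z := by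
    intro m hm x g hx
    rw [← inf_eq h (hZ m) (hM m) hm]
    refine ⟨?_, M.mul_mem x.2 (M.inv_mem (pick M (H m) g).2)⟩
    have e : (x : G) * ((pick M (H m) g : M) : G)⁻¹ =
        (x : G) * g * (((pick M (H m) g : M) : G) * g)⁻¹ := by group
    rw [e]
    exact (H m).mul_mem hx ((H m).inv_mem (pick_spec hnM (hM m) g))
  let Φ : {m : X // H m ≠ ⊤} → (Fin d → M ⧸ Z.subgroupOf M) × ((Fin n → Z) × (Fin n → Z)) :=
    fun m => (fun j => (pick M (H m.1) (s j) : M ⧸ Z.subgroupOf M),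
      (fun i => ⟨_, hdiff m.1 m.2 (m.1.1 i) (a i) (ha m.1 i)⟩,
       fun i => ⟨_, hdiff m.1 m.2 (m.1.2 i) (b i) (hb m.1 i)⟩))
  have hΦ : Function.Injective Φ := by
    intro m m' he
    have h1 : (fun j => (pick M (H m.1) (s j) : M ⧸ Z.subgroupOf M)) =
        fun j => (pick M (H m'.1) (s j) : M ⧸ Z.subgroupOf M) := congrArg Prod.fst he
    have h2 := congrArg (fun z => z.2.1) he
    have h3 := congrArg (fun z => z.2.2) he
    have hH : H m.1 = H m'.1 := supp_eq h (hZ _) (hZ _) (hM _) (hM _) m.2 m'.2 s hs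
      (fun j => QuotientGroup.eq.1 (congrFun h1 j))
    have h4 : ∀ i, (m.1.1 i : G) = m'.1.1 i := by
      intro i
      have h5 := congrArg (Subtype.val) (congrFun h2 i)
      change (m.1.1 i : G) * ((pick M (H m.1) (a i) : M) : G)⁻¹ =
        (m'.1.1 i : G) * ((pick M (H m'.1) (a i) : M) : G)⁻¹ at h5
      rw [hH] at h5
      exact mul_right_cancel h5
    have h4' : ∀ i, (m.1.2 i : G) = m'.1.2 i := by
      intro i
      have h5 := congrArg (Subtype.val) (congrFun h3 i)
      change (m.1.2 i : G) * ((pick M (H m.1) (b i) : M) : G)⁻¹ =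
        (m'.1.2 i : G) * ((pick M (H m'.1) (b i) : M) : G)⁻¹ at h5
      rw [hH] at h5
      exact mul_right_cancel h5
    apply Subtype.ext
    apply Prod.ext
    · funext i
      exact Subtype.ext (h4 i)
    · funext i
      exact Subtype.ext (h4' i)
  have h6 := Nat.card_le_card_of_injective Φ hΦ
  refine h6.trans (le_of_eq ?_)
  rw [Nat.card_prod, Nat.card_prod, Nat.card_pi, Nat.card_pi]
  simp only [Finset.prod_const, Finset.card_univ, Fintype.card_fin]
  rw [Subgroup.relIndex, Subgroup.index, two_mul, pow_add]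

end Pool.Agent.H19.EL
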