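import Pool.Agent.H11.EL.Targets

/-!
# Module [NE]: non-degeneracy of one commutator
-/

set_option autoImplicit false

open scoped commutatorElement

namespace Pool.Agent.H19.EL

open Pool.Agent.H11.EL

/-- (NE) -/
theorem pf_ne : T_NE := by
  intro G _ M Z D hM hZ hZM hc hz hr a b x' y' hx' hy' h
  -- the elements
  set c : G := a * b * a⁻¹ with hcdef
  set k : G := ⁅a, b⁆ with hk
  set t : G := x' * (a * y' * a⁻¹) * (c * x'⁻¹ * c⁻¹) with ht
  set u : G := a⁻¹ * x' * a with hu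
  have hconj : ∀ g : G, ∀ m ∈ M, g⁻¹ * m * g ∈ M := fun g m hm => by
    simpa using hM.conj_mem m hm g⁻¹
  have htM : t ∈ M := by
    rw [ht]
    exact M.mul_mem (M.mul_mem hx' (hM.conj_mem _ hy' _)) (hM.conj_mem _ (M.inv_mem hx') _)
  have huM : u ∈ M := hconj a x' hx'
  -- step 1
  have htZ : t ∈ Z := by
    refine hr t htM (fun m' hm' => ?_)
    have h1 := h (c⁻¹ * m'⁻¹ * c) (hconj c _ (M.inv_mem hm')) 1 M.one_mem
    have e : be a b (c⁻¹ * m'⁻¹ * c) 1 x' y' = ⁅t, m'⁆ := by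
      unfold be
      rw [← hcdef, ← ht, ← hk]
      have e1 : a * 1 * a⁻¹ = 1 := by group
      have e2 : k * 1⁻¹ * k⁻¹ = 1 := by group
      have e3 : c * (c⁻¹ * m'⁻¹ * c)⁻¹ * c⁻¹ = m' := by group
      rw [e1, e2, e3, commutatorElement_one_right, commutatorElement_one_right, one_mul, mul_one]
    rwa [e] at h1
  -- step 2
  have hsZ : u * y' ∈ Z := by
    refine hr _ (M.mul_mem huM hy') (fun y hy => ?_)
    have h1 := h 1 M.one_mem y hy
    have e : be a b 1 y x' y' = ⁅u * y', y⁆ := by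
      unfold be
      rw [← hcdef, ← ht, ← hk]
      have e1 : c * 1⁻¹ * c⁻¹ = 1 := by group
      have e2 : ⁅x', a * y * a⁻¹⁆ = ⁅u, y⁆ := by
        have e3 : ⁅x', a * y * a⁻¹⁆ = a * ⁅u, y⁆ * a⁻¹ := by
          rw [hu]
          simp only [commutatorElement_def]
          group
        rw [e3, ← hc u huM y hy a]
        group
      have e4 : ⁅th a b x' y', k * y⁻¹ * k⁻¹⁆ = ⁅y', y⁆ := by
        have e5 : th a b x' y' = t * (k * y'⁻¹ * k⁻¹) := by
          unfold th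
          rw [← hcdef, ← ht, ← hk]
        have e6 : ⁅t * (k * y'⁻¹ * k⁻¹), k * y⁻¹ * k⁻¹⁆ =
            t * ⁅k * y'⁻¹ * k⁻¹, k * y⁻¹ * k⁻¹⁆ * (k * y⁻¹ * k⁻¹) * t⁻¹ * (k * y⁻¹ * k⁻¹)⁻¹ := by
          simp only [commutatorElement_def]
          group
        have e7 : t * ⁅k * y'⁻¹ * k⁻¹, k * y⁻¹ * k⁻¹⁆ * (k * y⁻¹ * k⁻¹) * t⁻¹ *
            (k * y⁻¹ * k⁻¹)⁻¹ = ⁅k * y'⁻¹ * k⁻¹, k * y⁻¹ * k⁻¹⁆ := by
          rw [mul_assoc t, hz t htZ]
          group
        have e8 : ⁅k * y'⁻¹ * k⁻¹, k * y⁻¹ * k⁻¹⁆ = k * ((y * y')⁻¹ * ⁅y', y⁆ * (y * y')) * k⁻¹ := by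
          simp only [commutatorElement_def]
          group
        have e9 : (y * y')⁻¹ * ⁅y', y⁆ * (y * y') = ⁅y', y⁆ := by
          rw [mul_assoc, hc y' hy' y hy]
          group
        rw [e5, e6, e7, e8, e9, ← hc y' hy' y hy k]
        group
      have e10 : ⁅u * y', y⁆ = u * ⁅y', y⁆ * u⁻¹ * ⁅u, y⁆ := by
        simp only [commutatorElement_def]
        group
      rw [e1, e2, e4, commutatorElement_one_right, mul_one, e10, ← hc y' hy' y hy u,
        mul_inv_cancel_right, hc y' hy' y hy]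
    rwa [e] at h1
  -- step 3
  have h3 : x' * (a * y' * a⁻¹) = u * y' := by
    have e1 : x' * (a * y' * a⁻¹) = a * (u * y') * a⁻¹ := by
      rw [hu]
      group
    rw [e1, ← hz _ hsZ a]
    group
  have h4 : c * x'⁻¹ * c⁻¹ ∈ Z := by
    have e1 : c * x'⁻¹ * c⁻¹ = (u * y')⁻¹ * t := by
      rw [ht, h3]
      group
    rw [e1]
    exact Z.mul_mem (Z.inv_mem hsZ) htZ
  have h5 : x' ∈ Z := by
    have h6 := hZ.conj_mem _ h4 c⁻¹
    have e1 : c⁻¹ * (c * x'⁻¹ * c⁻¹) * c⁻¹⁻¹ = x'⁻¹ := by group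
    rw [e1] at h6
    exact (Subgroup.inv_mem_iff Z).1 h6
  refine ⟨h5, ?_⟩
  have h7 : u ∈ Z := by
    have := hZ.conj_mem _ h5 a⁻¹
    rw [inv_inv] at this
    exact this
  have e1 : y' = u⁻¹ * (u * y') := by group
  rw [e1]
  exact Z.mul_mem (Z.inv_mem h7) hsZ

end Pool.Agent.H19.EL
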