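import Pool.Agent.H11.EL.Targets

/-!
# Module [NK]: a word in the second derived group does not see the term `c` of the lower central
series
-/

set_option autoImplicit false

open scoped commutatorElement

namespace Pool.Agent.H19.EL

open Pool.Agent.H11.EL

theorem comm_central {Q : Type} [Group Q] {x y k l : Q} (hk : ∀ g, k * g = g * k)
    (hl : ∀ g, l * g = g * l) : ⁅x * k, y * l⁆ = ⁅x, y⁆ := by
  have hk' : ∀ g, k⁻¹ * g = g * k⁻¹ := fun g => by
    rw [inv_mul_eq_iff_eq_mul, ← mul_assoc, ← mul_inv_eq_iff_eq_mul, inv_inv, hk]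
  have hl' : ∀ g, l⁻¹ * g = g * l⁻¹ := fun g => by
    rw [inv_mul_eq_iff_eq_mul, ← mul_assoc, ← mul_inv_eq_iff_eq_mul, inv_inv, hl]
  rw [commutatorElement_def, commutatorElement_def, mul_inv_rev, mul_inv_rev]
  calc x * k * (y * l) * (k⁻¹ * x⁻¹) * (l⁻¹ * y⁻¹)
      = x * (k * (y * l)) * k⁻¹ * x⁻¹ * (l⁻¹ * y⁻¹) := by group
    _ = x * (y * l * k) * k⁻¹ * x⁻¹ * (y⁻¹ * l⁻¹) := by rw [hk, hl' y⁻¹]
    _ = x * y * (l * (x⁻¹ * y⁻¹)) * l⁻¹ := by group
    _ = x * y * (x⁻¹ * y⁻¹ * l) * l⁻¹ := by rw [hl]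
    _ = x * y * x⁻¹ * y⁻¹ := by group

/-- two homomorphisms which agree modulo the centre agree on commutators -/
theorem agree {F Q : Type} [Group F] [Group Q] (f g : F →* Q) (S : Subgroup F)
    (h : ∀ x ∈ S, ∀ z : Q, ((g x)⁻¹ * f x) * z = z * ((g x)⁻¹ * f x)) :
    ∀ x ∈ ⁅S, S⁆, f x = g x := by
  have h1 : ⁅S, S⁆ ≤ MonoidHom.eqLocus f g := by
    rw [Subgroup.commutator_le]
    intro x hx y hy
    change f ⁅x, y⁆ = g ⁅x, y⁆
    rw [map_commutatorElement, map_commutatorElement]
    have e1 : f x = g x * ((g x)⁻¹ * f x) := by group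
    have e2 : f y = g y * ((g y)⁻¹ * f y) := by group
    rw [e1, e2]
    exact comm_central (h x hx) (h y hy)
  exact fun x hx => h1 hx

/-- (NK) -/
theorem pf_nk : T_NK := by
  intro σ hσ H _ c hc a h u hu
  set φ : FreeGroup (Fin 2) →* H := FreeGroup.lift ![a, h * u] with hφ
  set ψ : FreeGroup (Fin 2) →* H := FreeGroup.lift ![a, h] with hψ
  set K : Subgroup H := (⊤ : Subgroup H).lowerCentralSeries (c + 1) with hK
  have : K.Normal := by rw [hK]; infer_instance
  -- the term `c + 1` is central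
  have hcen : ∀ s ∈ K, ∀ g : H, s * g = g * s := by
    intro s hs g
    have h1 : ⁅s, g⁆ ∈ (⊤ : Subgroup H).lowerCentralSeries (c + 2) := by
      rw [Subgroup.lowerCentralSeries_succ]
      exact Subgroup.commutator_mem_commutator hs (Subgroup.mem_top g)
    rw [hc, Subgroup.mem_bot, commutatorElement_eq_one_iff_mul_comm] at h1
    exact h1
  -- step 1
  have step1 : ∀ x ∈ derivedSeries (FreeGroup (Fin 2)) 1,
      (QuotientGroup.mk' K) (φ x) = (QuotientGroup.mk' K) (ψ x) := by
    have huc : ∀ z : H ⧸ K, (QuotientGroup.mk' K u) * z = z * (QuotientGroup.mk' K u) := by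
      intro z
      obtain ⟨g, rfl⟩ := QuotientGroup.mk'_surjective K z
      rw [← commutatorElement_eq_one_iff_mul_comm, ← map_commutatorElement]
      rw [QuotientGroup.mk'_apply, QuotientGroup.eq_one_iff, hK, Subgroup.lowerCentralSeries_succ]
      exact Subgroup.commutator_mem_commutator hu (Subgroup.mem_top g)
    have hmod : ∀ x : FreeGroup (Fin 2), (QuotientGroup.mk' K (ψ x))⁻¹ * QuotientGroup.mk' K (φ x) ∈
        Subgroup.center (H ⧸ K) := by
      intro x
      have h2 : (QuotientGroup.mk' (Subgroup.center (H ⧸ K))).comp ((QuotientGroup.mk' K).comp φ) =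
          (QuotientGroup.mk' (Subgroup.center (H ⧸ K))).comp ((QuotientGroup.mk' K).comp ψ) := by
        ext i
        fin_cases i
        · simp [hφ, hψ]
        · simp only [MonoidHom.comp_apply, hφ, hψ, FreeGroup.lift_apply_of]
          change ((QuotientGroup.mk' K (h * u) : H ⧸ K) : (H ⧸ K) ⧸ Subgroup.center (H ⧸ K)) =
            ((QuotientGroup.mk' K h : H ⧸ K) : (H ⧸ K) ⧸ Subgroup.center (H ⧸ K))
          rw [eq_comm, QuotientGroup.eq, map_mul, inv_mul_cancel_left, Subgroup.mem_center_iff]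
          exact fun g => (huc g).symm
      have h3 := DFunLike.congr_fun h2 x
      have h4 : ((QuotientGroup.mk' K (ψ x) : H ⧸ K) : (H ⧸ K) ⧸ Subgroup.center (H ⧸ K)) =
            ((QuotientGroup.mk' K (φ x) : H ⧸ K) : (H ⧸ K) ⧸ Subgroup.center (H ⧸ K)) := h3.symm
      exact QuotientGroup.eq.1 h4
    have h5 := agree ((QuotientGroup.mk' K).comp φ) ((QuotientGroup.mk' K).comp ψ) ⊤
      (fun x _ z => ((Subgroup.mem_center_iff.1 (hmod x)) z).symm)
    intro x hx
    rw [derivedSeries_succ, derivedSeries_zero] at hx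
    exact h5 x hx
  -- step 2
  have h6 := agree φ ψ (derivedSeries (FreeGroup (Fin 2)) 1) (fun x hx z => by
    refine hcen _ ?_ z
    have h7 := step1 x hx
    rw [QuotientGroup.mk'_apply, QuotientGroup.mk'_apply] at h7
    exact QuotientGroup.eq.1 h7.symm)
  exact h6 σ hσ

end Pool.Agent.H19.EL
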