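import Pool.Agent.H11.EL.Targets

/-!
# Module [FT]: groups which are nilpotent modulo the Frattini subgroup
-/

set_option autoImplicit false

namespace Pool.Agent.H19.EL

open Pool.Agent.H11.EL

/-- (FT) -/
theorem pf_ft : T_FT := by
  intro C _ _ K _ hK hnil
  have q := (Group.isNilpotent_of_finite_tfae (G := C)).out 0 3
  have q' := (Group.isNilpotent_of_finite_tfae (G := C ⧸ K)).out 0 3
  rw [q]
  rw [q'] at hnil
  intro p hp P
  have hQ := hnil p hp (P.mapSurjective (QuotientGroup.mk'_surjective K))
  rw [Sylow.coe_mapSurjective] at hQ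
  have hN : (((P : Subgroup C).map (QuotientGroup.mk' K)).comap (QuotientGroup.mk' K)).Normal :=
    hQ.comap _
  rw [Subgroup.comap_map_eq, QuotientGroup.ker_mk'] at hN
  have h1 := P.normalizer_sup_eq_top' (N := (P : Subgroup C) ⊔ K) le_sup_left
  have h2 : Subgroup.normalizer ((P : Subgroup C) : Set C) ⊔ frattini C = ⊤ := by
    rw [eq_top_iff, ← h1]
    refine sup_le le_sup_left (sup_le (le_sup_of_le_left Subgroup.le_normalizer)
      (le_sup_of_le_right hK))
  exact Subgroup.normalizer_eq_top_iff.1 (frattini_nongenerating h2)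

end Pool.Agent.H19.EL
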